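import Pool.Agent.Lib.MP_e1f7e2_al.SU.Iface

set_option autoImplicit false

/-! Project SU3 (MP_e1f7e2_al), module T2M (helper15). -/

open MvPolynomial

namespace Pool.Agent.Lib.MP_e1f7e2_al.SU.H15

variable {K : Type*} [Field K] {w : Fin 3 → ℝ}

theorem t2m (F : Facts K w) : T2mStatement K w := by
  intro f g h P p q m γ hfr hS
  constructor
  · have key : ∀ l : ℕ, l ≤ m →
        dg w (ev (pd 0 l P) f g) + l * (sg w - br w f h) ≤ dg w (ev P f g) := by
      intro l
      induction l with
      | zero => intro _; simp [pd]
      | succ l ih =>
        intro hl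
        have h1 := ih (by omega)
        have h2 : pd 0 (l + 1) P = pderiv 1 (pd 0 l P) := by
          unfold pd
          simp only [Function.iterate_zero, id_eq]
          rw [Function.iterate_succ_apply']
        have h3 := F.b.t2 f g h (pd 0 l P) hfr (by rw [← h2]; exact hS.ne 0 (l + 1) (by omega))
        rw [← h2] at h3
        push_cast
        linarith
    have h1 := key m le_rfl
    have h2 := hS.top 0 m (by omega)
    rw [h2, ← hS.dg'] at h1
    push_cast at h1
    linarith
  · have key : ∀ l : ℕ, l ≤ m →
        dg w (ev (pd l 0 P) f g) + l * (sg w - br w g h) ≤ dg w (ev P f g) := by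
      intro l
      induction l with
      | zero => intro _; simp [pd]
      | succ l ih =>
        intro hl
        have h1 := ih (by omega)
        have h2 : pd (l + 1) 0 P = pderiv 0 (pd l 0 P) := by
          unfold pd
          simp only [Function.iterate_zero, id_eq]
          rw [Function.iterate_succ_apply']
        have h3 := F.b.t2' f g h (pd l 0 P) hfr (by rw [← h2]; exact hS.ne (l + 1) 0 (by omega))
        rw [← h2] at h3
        push_cast
        linarith
    have h1 := key m le_rfl
    have h2 := hS.top m 0 (by omega)
    rw [h2, ← hS.df] at h1
    push_cast at h1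
    linarith

end Pool.Agent.Lib.MP_e1f7e2_al.SU.H15
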