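import Pool.Agent.Lib.MP_e1f7e2_al.SU.Iface

set_option autoImplicit false

/-! Project SU3 (MP_e1f7e2_al), module VDG (helper15). -/

open MvPolynomial

namespace Pool.Agent.Lib.MP_e1f7e2_al.SU.H15

variable {K : Type*} [Field K] {w : Fin 3 → ℝ}


lemma ev_sum (P : MvPolynomial (Fin 2) K) (f g : MvPolynomial (Fin 3) K) :
    ev P f g = ∑ m ∈ P.support, C (coeff m P) * (f ^ m 0 * g ^ m 1) := by
  unfold ev
  rw [aeval_def, eval₂_eq']
  apply Finset.sum_congr rfl
  intro m _
  rw [Fin.prod_univ_two]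
  simp [algebraMap_eq]

lemma ev_sum_of_subset (P : MvPolynomial (Fin 2) K) (T : Finset (Fin 2 →₀ ℕ)) (h : P.support ⊆ T) (f g : MvPolynomial (Fin 3) K) :
    ev P f g = ∑ m ∈ T, C (coeff m P) * (f ^ m 0 * g ^ m 1) := by
  rw [ev_sum]
  apply Finset.sum_subset h
  intro m _ hm
  rw [notMem_support_iff] at hm
  rw [hm]
  simp

lemma vdg_ge (a b : ℝ) (P : MvPolynomial (Fin 2) K) (m : Fin 2 →₀ ℕ) (h : m ∈ P.support) :
    (m 0 : ℝ) * a + (m 1 : ℝ) * b ≤ vdg a b P := by
  unfold vdg
  rw [dif_pos ⟨m, h⟩]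
  exact Finset.le_sup' (fun m : Fin 2 →₀ ℕ => (m 0 : ℝ) * a + (m 1 : ℝ) * b) h

lemma vdg_nn (a b : ℝ) (P : MvPolynomial (Fin 2) K) (ha : 0 ≤ a) (hb : 0 ≤ b) : 0 ≤ vdg a b P := by
  by_cases h : P.support.Nonempty
  · obtain ⟨m, hm⟩ := h
    refine le_trans ?_ (vdg_ge a b P m hm)
    positivity
  · unfold vdg
    rw [dif_neg h]

lemma fin2_ext {m m' : Fin 2 →₀ ℕ} (h0 : m 0 = m' 0) (h1 : m 1 = m' 1) : m = m' := by
  ext i
  fin_cases i
  · exact h0
  · exact h1

lemma aeval_sum_uni (S : Finset (Fin 2 →₀ ℕ)) (e : (Fin 2 →₀ ℕ) → ℕ) (c : (Fin 2 →₀ ℕ) → K) (g : MvPolynomial (Fin 3) K) :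
    Polynomial.aeval g (∑ m ∈ S, Polynomial.monomial (e m) (c m)) = ∑ m ∈ S, C (c m) * g ^ e m := by
  rw [map_sum]
  apply Finset.sum_congr rfl
  intro m _
  rw [Polynomial.aeval_monomial]
  rfl

theorem vdgFacts (hD : DegFacts K w) : VdFacts K w where
  nn := vdg_nn
  ge := vdg_ge
  att := by
    intro a b P hP
    have h : P.support.Nonempty := by
      rwa [Finset.nonempty_iff_ne_empty, Ne, support_eq_empty]
    obtain ⟨m, hm, he⟩ := Finset.exists_mem_eq_sup' h
      (fun m : Fin 2 →₀ ℕ => (m 0 : ℝ) * a + (m 1 : ℝ) * b)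
    refine ⟨m, hm, ?_⟩
    unfold vdg
    rw [dif_pos h, he]
  ev_le := by
    intro f g P
    rw [ev_sum]
    apply hD.sum_le (Fin 2 →₀ ℕ) _ _ _ (vdg_nn _ _ _ (hD.nn f) (hD.nn g))
    intro m hm
    refine (hD.Cmul_le _ _).trans ((hD.mul_le _ _).trans ?_)
    rw [hD.pow, hD.pow]
    exact vdg_ge _ _ P m hm
  uni1 := by
    intro P hP
    refine ⟨∑ m ∈ P.support, Polynomial.monomial (m 1) (coeff m P), fun f g => ?_⟩
    rw [ev_sum, aeval_sum_uni P.support (fun m => m 1)]
    apply Finset.sum_congr rfl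
    intro m hm
    rw [hP m hm, pow_zero, one_mul]
  uni0 := by
    intro P hP
    refine ⟨∑ m ∈ P.support, Polynomial.monomial (m 0) (coeff m P), fun f g => ?_⟩
    rw [ev_sum, aeval_sum_uni P.support (fun m => m 0)]
    apply Finset.sum_congr rfl
    intro m hm
    rw [hP m hm, pow_zero, mul_one]
  quad := by
    intro P hP
    classical
    let s1 : Fin 2 →₀ ℕ := Finsupp.single 0 1
    let s2 : Fin 2 →₀ ℕ := Finsupp.single 1 1
    let s3 : Fin 2 →₀ ℕ := Finsupp.single 1 2
    have e10 : s1 0 = 1 := by simp [s1]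
    have e11 : s1 1 = 0 := by simp [s1]
    have e20 : s2 0 = 0 := by simp [s2]
    have e21 : s2 1 = 1 := by simp [s2]
    have e30 : s3 0 = 0 := by simp [s3]
    have e31 : s3 1 = 2 := by simp [s3]
    have n1 : (0 : Fin 2 →₀ ℕ) ∉ ({s1, s2, s3} : Finset (Fin 2 →₀ ℕ)) := by
      simp only [Finset.mem_insert, Finset.mem_singleton, not_or]
      refine ⟨fun h => ?_, fun h => ?_, fun h => ?_⟩
      · have := congrArg (fun z : Fin 2 →₀ ℕ => z 0) h; simp [e10] at this
      · have := congrArg (fun z : Fin 2 →₀ ℕ => z 1) h; simp [e21] at this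
      · have := congrArg (fun z : Fin 2 →₀ ℕ => z 1) h; simp [e31] at this
    have n2 : s1 ∉ ({s2, s3} : Finset (Fin 2 →₀ ℕ)) := by
      simp only [Finset.mem_insert, Finset.mem_singleton, not_or]
      refine ⟨fun h => ?_, fun h => ?_⟩
      · have := congrArg (fun z : Fin 2 →₀ ℕ => z 0) h; simp [e10, e20] at this
      · have := congrArg (fun z : Fin 2 →₀ ℕ => z 0) h; simp [e10, e30] at this
    have n3 : s2 ∉ ({s3} : Finset (Fin 2 →₀ ℕ)) := by
      simp only [Finset.mem_singleton]
      intro h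
      have := congrArg (fun z : Fin 2 →₀ ℕ => z 1) h
      simp [e21, e31] at this
    have hsub : P.support ⊆ ({0, s1, s2, s3} : Finset (Fin 2 →₀ ℕ)) := by
      intro m hm
      simp only [Finset.mem_insert, Finset.mem_singleton]
      rcases hP m hm with ⟨h0, h1⟩ | ⟨h0, h1⟩
      · have h1' : m 1 = 0 ∨ m 1 = 1 ∨ m 1 = 2 := by omega
        rcases h1' with h1' | h1' | h1'
        · exact Or.inl (fin2_ext (by simp [h0]) (by simp [h1']))
        · exact Or.inr (Or.inr (Or.inl (fin2_ext (by simp [h0, e20]) (by simp [h1', e21]))))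
        · exact Or.inr (Or.inr (Or.inr (fin2_ext (by simp [h0, e30]) (by simp [h1', e31]))))
      · exact Or.inr (Or.inl (fin2_ext (by simp [h0, e10]) (by simp [h1, e11])))
    refine ⟨coeff 0 P, coeff s1 P, coeff s2 P, coeff s3 P, fun f g => ?_⟩
    rw [ev_sum_of_subset P _ hsub, Finset.sum_insert n1, Finset.sum_insert n2,
      Finset.sum_insert n3, Finset.sum_singleton, e10, e11, e20, e21, e30, e31]
    simp
    ring
  lin0 := by
    intro P hP
    classical
    let s1 : Fin 2 →₀ ℕ := Finsupp.single 0 1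
    have e10 : s1 0 = 1 := by simp [s1]
    have e11 : s1 1 = 0 := by simp [s1]
    refine ⟨coeff s1 P, ∑ m ∈ P.support.filter (fun m => m 0 = 0),
      Polynomial.monomial (m 1) (coeff m P), fun f g => ?_⟩
    have hsub : P.support ⊆ insert s1 (P.support.filter (fun m => m 0 = 0)) := by
      intro m hm
      rw [Finset.mem_insert, Finset.mem_filter]
      rcases hP m hm with h0 | ⟨h0, h1⟩
      · exact Or.inr ⟨hm, h0⟩
      · exact Or.inl (fin2_ext (by rw [h0, e10]) (by rw [h1, e11]))
    have hn : s1 ∉ P.support.filter (fun m => m 0 = 0) := by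
      rw [Finset.mem_filter]
      rintro ⟨-, h⟩
      rw [e10] at h
      exact one_ne_zero h
    rw [ev_sum_of_subset P _ hsub, Finset.sum_insert hn, e10, e11,
      aeval_sum_uni (P.support.filter (fun m => m 0 = 0)) (fun m => m 1), pow_one, pow_zero,
      mul_one]
    congr 1
    apply Finset.sum_congr rfl
    intro m hm
    rw [(Finset.mem_filter.1 hm).2, pow_zero, one_mul]
  cst := by
    intro P hP
    refine ⟨coeff 0 P, ?_⟩
    ext m
    rw [coeff_C]
    split_ifs with h
    · rw [h]
    · by_contra hne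
      exact h (hP m (mem_support_iff.2 hne)).symm
  auni := by
    intro g R hR
    by_cases hg : dg w g = 0
    · obtain ⟨c, hc⟩ := hD.of_zero g hg
      rw [hg, mul_zero, hc]
      have : Polynomial.aeval (C c : MvPolynomial (Fin 3) K) R = C (Polynomial.eval c R) := by
        have h1 := Polynomial.aeval_algebraMap_apply (MvPolynomial (Fin 3) K) c R
        rw [algebraMap_eq, Polynomial.coe_aeval_eq_eval] at h1
        exact h1
      rw [this, hD.const]
    · have hg0 : 0 < dg w g := lt_of_le_of_ne (hD.nn g) (Ne.symm hg)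
      have key : ∀ n : ℕ, ∀ R : Polynomial K, R ≠ 0 → R.natDegree = n →
          dg w (Polynomial.aeval g R) = n * dg w g := by
        intro n
        induction n using Nat.strong_induction_on with
        | _ n ih =>
          intro R hR hn
          have hlc : R.leadingCoeff ≠ 0 := by rwa [Ne, Polynomial.leadingCoeff_eq_zero]
          have hdec := R.eraseLead_add_monomial_natDegree_leadingCoeff
          have htop : dg w (Polynomial.aeval g (Polynomial.monomial R.natDegree R.leadingCoeff)) =
              n * dg w g := by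
            rw [Polynomial.aeval_monomial]
            show dg w (C R.leadingCoeff * g ^ R.natDegree) = _
            rw [hD.Cmul _ _ hlc, hD.pow, hn]
          by_cases h0 : R.eraseLead = 0
          · rw [h0, zero_add] at hdec
            rw [← hdec, htop]
          · have hlt : R.eraseLead.natDegree < n := by
              rcases R.eraseLead_natDegree_lt_or_eraseLead_eq_zero with h | h
              · omega
              · exact absurd h h0
            have hih := ih _ hlt _ h0 rfl
            rw [← hdec, map_add, hD.add_right, htop]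
            rw [hih, htop]
            have : (R.eraseLead.natDegree : ℝ) < n := by exact_mod_cast hlt
            exact mul_lt_mul_of_pos_right this hg0
      exact key _ R hR rfl

end Pool.Agent.Lib.MP_e1f7e2_al.SU.H15
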