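import Pool.Agent.Lib.MP_e1f7e2_al.SU.Iface

set_option autoImplicit false

/-! Project SU3 (MP_e1f7e2_al), module VEC (helper15). -/

open MvPolynomial

namespace Pool.Agent.Lib.MP_e1f7e2_al.SU.H15

variable {K : Type*} [Field K] {w : Fin 3 → ℝ}


lemma dv_ge (u : Fin 3 → MvPolynomial (Fin 3) K) (i : Fin 3) : dg w (u i) ≤ dv w u := by
  unfold dv
  fin_cases i
  · exact le_max_left _ _
  · exact (le_max_left _ _).trans (le_max_right _ _)
  · exact (le_max_right _ _).trans (le_max_right _ _)

lemma dv_le {u : Fin 3 → MvPolynomial (Fin 3) K} {r : ℝ} (h : ∀ i, dg w (u i) ≤ r) : dv w u ≤ r := by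
  unfold dv
  exact max_le (h 0) (max_le (h 1) (h 2))

lemma dv_att (w : Fin 3 → ℝ) (u : Fin 3 → MvPolynomial (Fin 3) K) : ∃ i, dg w (u i) = dv w u := by
  unfold dv
  rcases max_choice (dg w (u 0)) (max (dg w (u 1)) (dg w (u 2))) with h | h
  · exact ⟨0, h.symm⟩
  · rcases max_choice (dg w (u 1)) (dg w (u 2)) with h' | h'
    · exact ⟨1, by rw [h, h']⟩
    · exact ⟨2, by rw [h, h']⟩

lemma dv_congr {u v : Fin 3 → MvPolynomial (Fin 3) K} (h : ∀ i, dg w (u i) = dg w (v i)) : dv w u = dv w v := by
  unfold dv
  rw [h 0, h 1, h 2]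

lemma coeff_D (f : MvPolynomial (Fin 3) K) (i : Fin 3) (α : Fin 3 →₀ ℕ) : coeff α (D f i) = (α i : K) * coeff α f := by
  unfold D
  induction f using MvPolynomial.induction_on' with
  | monomial m r =>
    rw [X_mul_pderiv_monomial, coeff_smul, coeff_monomial]
    split_ifs with h
    · rw [h, nsmul_eq_mul]
    · simp
  | add p q hp hq =>
    rw [map_add, mul_add, coeff_add, hp, hq, coeff_add, mul_add]

lemma wt_le_dg {f : MvPolynomial (Fin 3) K} {α : Fin 3 →₀ ℕ} (h : α ∈ f.support) : wt w α ≤ dg w f := by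
  unfold dg
  rw [dif_pos ⟨α, h⟩]
  exact Finset.le_sup' (wt w) h

lemma dg_att {f : MvPolynomial (Fin 3) K} (h : f ≠ 0) : ∃ α ∈ f.support, wt w α = dg w f := by
  have hs : f.support.Nonempty := by
    rwa [Finset.nonempty_iff_ne_empty, Ne, support_eq_empty]
  obtain ⟨m, hm, he⟩ := Finset.exists_mem_eq_sup' hs (wt w)
  refine ⟨m, hm, ?_⟩
  unfold dg
  rw [dif_pos hs, he]

theorem vecFacts [CharZero K] (hD : DegFacts K w) : VecFacts K w := by
  have nn : ∀ u : Fin 3 → MvPolynomial (Fin 3) K, 0 ≤ dv w u := fun u => (hD.nn _).trans (dv_ge u 0)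
  have neg : ∀ u : Fin 3 → MvPolynomial (Fin 3) K, dv w (-u) = dv w u := fun u =>
    dv_congr (fun i => hD.neg (u i))
  have add_le : ∀ u v : Fin 3 → MvPolynomial (Fin 3) K, dv w (u + v) ≤ max (dv w u) (dv w v) := fun u v =>
    dv_le (fun i => (hD.add_le _ _).trans (max_le_max (dv_ge u i) (dv_ge v i)))
  have add_right : ∀ u v : Fin 3 → MvPolynomial (Fin 3) K, dv w u < dv w v → dv w (u + v) = dv w v := by
    intro u v h
    apply le_antisymm
    · have := add_le u v
      rwa [max_eq_right h.le] at this
    · obtain ⟨i, hi⟩ := dv_att w v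
      have h1 : dg w (u i) < dg w (v i) := lt_of_le_of_lt (dv_ge u i) (by rw [hi]; exact h)
      have h2 := hD.add_right _ _ h1
      rw [← hi, ← h2]
      exact dv_ge (u + v) i
  have add_left : ∀ u v : Fin 3 → MvPolynomial (Fin 3) K, dv w v < dv w u → dv w (u + v) = dv w u := by
    intro u v h
    rw [add_comm]
    exact add_right v u h
  have smul_le : ∀ (a : MvPolynomial (Fin 3) K) (u : Fin 3 → MvPolynomial (Fin 3) K), dv w (a • u) ≤ dg w a + dv w u := fun a u =>
    dv_le (fun i => (hD.mul_le a (u i)).trans (by have := dv_ge (w := w) u i; linarith))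
  have cr_le : ∀ u v : Fin 3 → MvPolynomial (Fin 3) K, dv w (cr u v) ≤ dv w u + dv w v := by
    intro u v
    have key : ∀ i j k l : Fin 3, dg w (u i * v j - u k * v l) ≤ dv w u + dv w v := by
      intro i j k l
      have h1 := hD.mul_le (u i) (v j)
      have h2 := hD.mul_le (u k) (v l)
      have a1 := dv_ge (w := w) u i
      have a2 := dv_ge (w := w) v j
      have a3 := dv_ge (w := w) u k
      have a4 := dv_ge (w := w) v l
      exact (hD.sub_le _ _).trans (max_le (by linarith) (by linarith))
    apply dv_le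
    intro i
    fin_cases i
    · exact key 1 2 2 1
    · exact key 2 0 0 2
    · exact key 0 1 1 0
  refine
    { nn := nn
      zero := ?_
      neg := neg
      add_le := add_le
      sub_le := ?_
      add_right := add_right
      add_left := add_left
      sub_right := ?_
      sub_left := ?_
      smul := ?_
      smul_le := smul_le
      Csmul := ?_
      cr_le := cr_le
      dt_le := ?_
      D' := ?_ }
  · apply le_antisymm _ (nn _)
    exact dv_le (fun i => by rw [Pi.zero_apply, hD.zero])
  · intro u v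
    rw [sub_eq_add_neg]
    have := add_le u (-v)
    rwa [neg v] at this
  · intro u v h
    rw [sub_eq_add_neg, add_right u (-v) (by rw [neg v]; exact h), neg v]
  · intro u v h
    rw [sub_eq_add_neg, add_left u (-v) (by rw [neg v]; exact h)]
  · intro a u ha hu
    apply le_antisymm (smul_le a u)
    -- an index with `u i ≠ 0` and `dg (u i) = dv u`
    have : ∃ i, u i ≠ 0 ∧ dg w (u i) = dv w u := by
      obtain ⟨i, hi⟩ := dv_att w u
      by_cases h0 : u i = 0
      · obtain ⟨j, hj⟩ := Function.ne_iff.1 hu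
        refine ⟨j, hj, ?_⟩
        rw [h0, hD.zero] at hi
        apply le_antisymm (dv_ge u j)
        rw [← hi]
        exact hD.nn _
      · exact ⟨i, h0, hi⟩
    obtain ⟨i, h0, hi⟩ := this
    rw [← hi, ← hD.mul a (u i) ha h0]
    exact dv_ge (a • u) i
  · intro c u hc
    exact dv_congr (fun i => hD.Cmul c (u i) hc)
  · intro u v
    unfold dt
    have key : ∀ i : Fin 3, dg w (u i * v i) ≤ dv w u + dv w v := fun i => by
      have h1 := hD.mul_le (u i) (v i)
      have a1 := dv_ge (w := w) u i
      have a2 := dv_ge (w := w) v i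
      linarith
    exact (hD.add_le _ _).trans (max_le ((hD.add_le _ _).trans (max_le (key 0) (key 1))) (key 2))
  · intro f
    apply le_antisymm
    · apply dv_le
      intro i
      by_cases h : D f i = 0
      · rw [h, hD.zero]
        exact hD.nn f
      · obtain ⟨α, hα, he⟩ := dg_att (w := w) h
        rw [← he]
        apply wt_le_dg
        rw [mem_support_iff] at hα ⊢
        intro h0
        rw [coeff_D, h0, mul_zero] at hα
        exact hα rfl
    · by_cases hf : f = 0
      · rw [hf, hD.zero]
        exact nn _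
      obtain ⟨α, hα, he⟩ := dg_att (w := w) hf
      by_cases hα0 : α = 0
      · rw [← he, hα0]
        have : wt w 0 = 0 := by simp [wt]
        rw [this]
        exact nn _
      · obtain ⟨i, hi⟩ := Finsupp.ne_iff.1 hα0
        rw [← he]
        refine le_trans ?_ (dv_ge (D f) i)
        apply wt_le_dg
        rw [mem_support_iff] at hα ⊢
        rw [coeff_D]
        refine mul_ne_zero ?_ hα
        rw [Finsupp.coe_zero, Pi.zero_apply] at hi
        exact_mod_cast hi

end Pool.Agent.Lib.MP_e1f7e2_al.SU.H15
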